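import Mathlib
import Pool.Agent.H9.UQL.Defs

/-! UQL, module LAB, part A: averages, union bound, sums over connected sets. -/

set_option autoImplicit false

namespace Pool.Agent.H91.UQL

open Pool.Agent.H9.UQL Classical

/-! ### averages -/

lemma ex_equiv {Ω Ω' : Type} [Fintype Ω] [Fintype Ω'] (e : Ω ≃ Ω') (f : Ω' → ℝ) :
    ex (fun ω => f (e ω)) = ex f := by
  unfold ex
  rw [Fintype.card_congr e]
  congr 1
  exact Fintype.sum_equiv e _ _ (fun _ => rfl)

lemma ex_prod {A B : Type} [Fintype A] [Fintype B] (f : A → B → ℝ) :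
    ex (fun p : A × B => f p.1 p.2) = ex (fun a => ex (fun b => f a b)) := by
  unfold ex
  rw [Fintype.sum_prod_type, Fintype.card_prod, ← Finset.sum_div, div_div]
  push_cast
  rw [mul_comm (Fintype.card B : ℝ)]

lemma ex_const {A : Type} [Fintype A] [Nonempty A] (a : ℝ) : ex (fun _ : A => a) = a := by
  unfold ex
  rw [Finset.sum_const, Finset.card_univ, nsmul_eq_mul]
  have : (0 : ℝ) < Fintype.card A := by exact_mod_cast Fintype.card_pos
  field_simp

lemma ex_eval {Y Λ : Type} [Fintype Y] [DecidableEq Y] [Fintype Λ] [Nonempty Λ] (z : Y)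
    (f : Λ → ℝ) : ex (fun σ : Y → Λ => f (σ z)) = ex f := by
  have h := ex_equiv (Equiv.funSplitAt z Λ) (fun p => f p.1)
  have h2 : (fun σ : Y → Λ => f (σ z)) = fun σ => (fun p : Λ × ({j // j ≠ z} → Λ) => f p.1)
      (Equiv.funSplitAt z Λ σ) := by
    funext σ
    simp [Equiv.funSplitAt, Equiv.piSplitAt]
  rw [h2, h, ex_prod (fun (a : Λ) (_ : {j // j ≠ z} → Λ) => f a)]
  simp only [ex_const]

lemma ex_eval2 {Y Λ : Type} [Fintype Y] [DecidableEq Y] [Fintype Λ] [Nonempty Λ] {z w : Y}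
    (hzw : z ≠ w) (B : Λ → Λ → ℝ) :
    ex (fun σ : Y → Λ => B (σ z) (σ w)) = ex (fun p : Λ × Λ => B p.1 p.2) := by
  have h := ex_equiv (Equiv.funSplitAt z Λ)
    (fun p : Λ × ({j // j ≠ z} → Λ) => B p.1 (p.2 ⟨w, hzw.symm⟩))
  have h2 : (fun σ : Y → Λ => B (σ z) (σ w)) = fun σ =>
      (fun p : Λ × ({j // j ≠ z} → Λ) => B p.1 (p.2 ⟨w, hzw.symm⟩)) (Equiv.funSplitAt z Λ σ) := by
    funext σ
    simp [Equiv.funSplitAt, Equiv.piSplitAt]
  rw [h2, h, ex_prod (fun (a : Λ) (τ : {j // j ≠ z} → Λ) => B a (τ ⟨w, hzw.symm⟩)), ex_prod]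
  congr 1
  funext a
  exact ex_eval (⟨w, hzw.symm⟩ : {j // j ≠ z}) (fun b => B a b)

lemma ex_mono {A : Type} [Fintype A] {f g : A → ℝ} (h : ∀ a, f a ≤ g a) : ex f ≤ ex g := by
  unfold ex
  exact div_le_div_of_nonneg_right (Finset.sum_le_sum fun a _ => h a) (Nat.cast_nonneg _)

lemma ex_sum {A I : Type} [Fintype A] (s : Finset I) (f : I → A → ℝ) :
    ex (fun a => ∑ i ∈ s, f i a) = ∑ i ∈ s, ex (f i) := by
  unfold ex
  rw [Finset.sum_comm, Finset.sum_div]

lemma ex_mul_left {A : Type} [Fintype A] (c : ℝ) (f : A → ℝ) :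
    ex (fun a => c * f a) = c * ex f := by
  unfold ex
  rw [← Finset.mul_sum, mul_div_assoc]

lemma pr_eq_ex {A : Type} [Fintype A] (P : A → Prop) :
    pr P = ex (fun a => if P a then (1 : ℝ) else 0) := by
  unfold pr ex
  congr 1
  rw [Finset.sum_ite]
  simp

lemma pr_nonneg {A : Type} [Fintype A] (P : A → Prop) : 0 ≤ pr P := by
  unfold pr; positivity

lemma pr_mono {A : Type} [Fintype A] {P Q : A → Prop} (h : ∀ a, P a → Q a) : pr P ≤ pr Q := by
  unfold pr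
  refine div_le_div_of_nonneg_right ?_ (Nat.cast_nonneg _)
  exact_mod_cast Finset.card_le_card (Finset.monotone_filter_right _ (fun a _ => h a))

lemma pr_union {A I : Type} [Fintype A] (s : Finset I) (P : I → A → Prop) :
    pr (fun a => ∃ i ∈ s, P i a) ≤ ∑ i ∈ s, pr (P i) := by
  rw [pr_eq_ex]
  simp only [pr_eq_ex]
  rw [← ex_sum]
  refine ex_mono fun a => ?_
  by_cases h : ∃ i ∈ s, P i a
  · obtain ⟨i, hi, hPi⟩ := h
    rw [if_pos ⟨i, hi, hPi⟩]
    calc (1 : ℝ) = if P i a then 1 else 0 := by rw [if_pos hPi]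
      _ ≤ ∑ i ∈ s, if P i a then (1 : ℝ) else 0 :=
        Finset.single_le_sum (f := fun i => if P i a then (1 : ℝ) else 0)
          (fun i _ => by split_ifs <;> norm_num) hi
  · rw [if_neg h]
    exact Finset.sum_nonneg fun i _ => by split_ifs <;> norm_num

/-! ### elementary inequalities -/

lemma exp_le_one_sub {x : ℝ} (h0 : 0 ≤ x) (h1 : x ≤ 1 / 2) : Real.exp (-(2 * x)) ≤ 1 - x := by
  have h2 : 1 / (1 - x) ≤ Real.exp (2 * x) := by
    have h3 : 1 / (1 - x) ≤ 1 + 2 * x := by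
      rw [div_le_iff₀ (by linarith)]
      nlinarith
    linarith [Real.add_one_le_exp (2 * x)]
  rw [Real.exp_neg]
  have h4 : 0 < 1 - x := by linarith
  rw [inv_le_comm₀ (Real.exp_pos _) h4]
  rw [one_div] at h2
  exact h2

lemma prod_ge {I : Type} (s : Finset I) (x : I → ℝ) (h0 : ∀ i ∈ s, 0 ≤ x i)
    (h1 : ∀ i ∈ s, x i ≤ 1 / 2) :
    Real.exp (-(2 * ∑ i ∈ s, x i)) ≤ ∏ i ∈ s, (1 - x i) := by
  rw [Finset.mul_sum, ← Finset.sum_neg_distrib, Real.exp_sum]
  exact Finset.prod_le_prod (fun i _ => (Real.exp_pos _).le)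
    (fun i hi => exp_le_one_sub (h0 i hi) (h1 i hi))

lemma geom_le {ρ : ℝ} (h0 : 0 ≤ ρ) (h1 : ρ ≤ 1 / 2) (n : ℕ) :
    ∑ i ∈ Finset.range n, ρ ^ (i + 1) ≤ 2 * ρ := by
  have h : ∑ i ∈ Finset.range n, ρ ^ (i + 1) = ρ * ∑ i ∈ Finset.range n, ρ ^ i := by
    rw [Finset.mul_sum]; exact Finset.sum_congr rfl fun i _ => by rw [pow_succ]; ring
  rw [h]
  have h2 : ∑ i ∈ Finset.range n, ρ ^ i ≤ 2 := by
    have h3 : ∑ i ∈ Finset.range n, ρ ^ i ≤ ∑' i, ρ ^ i :=
      (summable_geometric_of_lt_one h0 (by linarith)).sum_le_tsum _ (fun i _ => by positivity)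
    rw [tsum_geometric_of_lt_one h0 (by linarith)] at h3
    refine h3.trans ?_
    rw [inv_le_comm₀ (by linarith) (by norm_num)]
    linarith
  nlinarith

/-- weights of connected sets. -/
noncomputable def wx {Y : Type} (r : Y → Y → Prop) (lam : ℝ) (Z : Finset Y) : ℝ :=
  if Z.Nonempty ∧ ConnRel r Z then Real.exp (-(lam * Z.card)) else 0

lemma wx_nonneg {Y : Type} (r : Y → Y → Prop) (lam : ℝ) (Z : Finset Y) : 0 ≤ wx r lam Z := by
  unfold wx; split_ifs
  · exact (Real.exp_pos _).le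
  · exact le_rfl

lemma wx_le {Y : Type} (r : Y → Y → Prop) {lam : ℝ} (hl : 0 ≤ lam) (Z : Finset Y) :
    wx r lam Z ≤ Real.exp (-lam) := by
  unfold wx; split_ifs with h
  · apply Real.exp_le_exp.2
    have : (1 : ℝ) ≤ Z.card := by exact_mod_cast h.1.card_pos
    nlinarith
  · exact (Real.exp_pos _).le

/-- sum over connected sets through a point. -/
lemma sum_through {Y : Type} [Fintype Y] (hc : CountStmt) (r : Y → Y → Prop) (V : ℕ)
    (hr : ∀ z, r z z) (hs : ∀ z w, r z w → r w z)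
    (hV : ∀ z, (Finset.univ.filter (fun w => r z w)).card ≤ V) (lam : ℝ)
    (hρ : (V : ℝ) ^ 2 * Real.exp (-lam) ≤ 1 / 2) (z : Y) :
    ∑ Z ∈ Finset.univ.filter (fun Z : Finset Y => z ∈ Z), wx r lam Z ≤
      2 * ((V : ℝ) ^ 2 * Real.exp (-lam)) := by
  set ρ : ℝ := (V : ℝ) ^ 2 * Real.exp (-lam) with hρd
  have hρ0 : 0 ≤ ρ := by positivity
  refine le_trans ?_ (geom_le hρ0 hρ (Fintype.card Y))
  have hmap : ∀ Z ∈ Finset.univ.filter (fun Z : Finset Y => z ∈ Z),
      Z.card - 1 ∈ Finset.range (Fintype.card Y) := by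
    intro Z hZ
    rw [Finset.mem_filter] at hZ
    have h1 : 0 < Z.card := Finset.card_pos.2 ⟨z, hZ.2⟩
    have h2 := Finset.card_le_univ Z
    rw [Finset.mem_range]; omega
  rw [← Finset.sum_fiberwise_of_maps_to hmap]
  refine Finset.sum_le_sum fun n _ => ?_
  have hcount := hc Y r V hr hs hV z (n + 1)
  have h1 : ∑ Z ∈ (Finset.univ.filter (fun Z : Finset Y => z ∈ Z)).filter
        (fun Z => Z.card - 1 = n), wx r lam Z ≤
      ∑ Z ∈ Finset.univ.filter (fun Z : Finset Y => z ∈ Z ∧ Z.card = n + 1 ∧ ConnRel r Z),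
        Real.exp (-lam) ^ (n + 1) := by
    rw [← Finset.sum_filter_add_sum_filter_not _ (fun Z : Finset Y => ConnRel r Z)]
    have hz : ∑ Z ∈ ((Finset.univ.filter (fun Z : Finset Y => z ∈ Z)).filter
        (fun Z => Z.card - 1 = n)).filter (fun Z => ¬ ConnRel r Z), wx r lam Z = 0 := by
      refine Finset.sum_eq_zero fun Z hZ => ?_
      rw [Finset.mem_filter] at hZ
      unfold wx
      rw [if_neg (fun h => hZ.2 h.2)]
    rw [hz, add_zero]
    refine le_of_eq ?_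
    refine Finset.sum_congr ?_ ?_
    · ext Z
      simp only [Finset.mem_filter, Finset.mem_univ, true_and]
      constructor
      · rintro ⟨⟨h1, h2⟩, h3⟩
        refine ⟨h1, ?_, h3⟩
        have := Finset.card_pos.2 ⟨z, h1⟩
        omega
      · rintro ⟨h1, h2, h3⟩
        exact ⟨⟨h1, by omega⟩, h3⟩
    · intro Z hZ
      rw [Finset.mem_filter] at hZ
      unfold wx
      rw [if_pos ⟨⟨z, hZ.2.1⟩, hZ.2.2.2⟩, hZ.2.2.1, ← Real.exp_nat_mul]
      congr 1; push_cast; ring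
  refine h1.trans ?_
  rw [Finset.sum_const, nsmul_eq_mul]
  calc _ ≤ ((V ^ (2 * (n + 1)) : ℕ) : ℝ) * Real.exp (-lam) ^ (n + 1) := by
        refine mul_le_mul_of_nonneg_right (by exact_mod_cast hcount) (by positivity)
    _ = ρ ^ (n + 1) := by
        rw [hρd, mul_pow, ← pow_mul]; push_cast; ring

/-- sum over connected sets meeting a given finite set. -/
lemma sum_touch {Y : Type} [Fintype Y] (hc : CountStmt) (r : Y → Y → Prop) (V : ℕ)
    (hr : ∀ z, r z z) (hs : ∀ z w, r z w → r w z)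
    (hV : ∀ z, (Finset.univ.filter (fun w => r z w)).card ≤ V) (lam : ℝ)
    (hρ : (V : ℝ) ^ 2 * Real.exp (-lam) ≤ 1 / 2) (P : Finset Y) (F : Finset (Finset Y))
    (hF : ∀ Z ∈ F, ∃ z ∈ P, z ∈ Z) :
    ∑ Z ∈ F, wx r lam Z ≤ P.card * (2 * ((V : ℝ) ^ 2 * Real.exp (-lam))) := by
  calc ∑ Z ∈ F, wx r lam Z
      ≤ ∑ Z ∈ F, ∑ z ∈ P, (if z ∈ Z then wx r lam Z else 0) := by
        refine Finset.sum_le_sum fun Z hZ => ?_
        obtain ⟨z, hz, hzZ⟩ := hF Z hZ
        calc wx r lam Z = (if z ∈ Z then wx r lam Z else 0) := by rw [if_pos hzZ]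
          _ ≤ _ := Finset.single_le_sum (f := fun z => if z ∈ Z then wx r lam Z else 0)
            (fun z _ => by split_ifs; exacts [wx_nonneg r lam Z, le_rfl]) hz
    _ = ∑ z ∈ P, ∑ Z ∈ F, (if z ∈ Z then wx r lam Z else 0) := Finset.sum_comm
    _ ≤ ∑ z ∈ P, ∑ Z ∈ Finset.univ.filter (fun Z : Finset Y => z ∈ Z), wx r lam Z := by
        refine Finset.sum_le_sum fun z _ => ?_
        rw [Finset.sum_filter]
        exact Finset.sum_le_sum_of_subset_of_nonneg (Finset.subset_univ _)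
          (fun Z _ _ => by split_ifs; exacts [wx_nonneg r lam Z, le_rfl])
    _ ≤ ∑ z ∈ P, 2 * ((V : ℝ) ^ 2 * Real.exp (-lam)) :=
        Finset.sum_le_sum fun z _ => sum_through hc r V hr hs hV lam hρ z
    _ = _ := by rw [Finset.sum_const, nsmul_eq_mul]

end Pool.Agent.H91.UQL
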