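import Mathlib
import Pool.Agent.H91.UQL.LabA

/-! UQL, module LAB, part B: choice of parameters. -/

set_option autoImplicit false

namespace Pool.Agent.H91.UQL

open Pool.Agent.H9.UQL Filter Topology

lemma exists_s (r K : ℝ) (hr : 1 < r) (hK : 0 < K) :
    ∃ s : ℕ, (K * ((s : ℝ) + 1) ^ 5) ^ 4 ≤ r ^ s := by
  have h := tendsto_pow_const_div_const_pow_of_one_lt 20 hr
  have h2 : ∀ᶠ n : ℕ in atTop, (n : ℝ) ^ 20 / r ^ n < 1 / (K ^ 4 * r) :=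
    h.eventually (gt_mem_nhds (by positivity))
  obtain ⟨n, hn1, hn2⟩ := (h2.and (eventually_ge_atTop 1)).exists
  obtain ⟨s, rfl⟩ : ∃ s, n = s + 1 := ⟨n - 1, by omega⟩
  refine ⟨s, ?_⟩
  have hr0 : 0 < r := by linarith
  rw [div_lt_div_iff₀ (by positivity) (by positivity), pow_succ r s] at hn1
  push_cast at hn1
  have h3 : ((s : ℝ) + 1) ^ 20 * K ^ 4 * r < r ^ s * r := by linarith [hn1]
  have h4 := lt_of_mul_lt_mul_right h3 hr0.le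
  calc (K * ((s : ℝ) + 1) ^ 5) ^ 4 = ((s : ℝ) + 1) ^ 20 * K ^ 4 := by ring
    _ ≤ r ^ s := h4.le

lemma core_R (K9 S G R : ℝ) (hK : 0 < K9) (hS : 0 < S) (hG : 0 < G) (hR : 1 ≤ R)
    (h1 : (K9 * S ^ 5) ^ 4 ≤ R) (h2 : G ^ 20 ≤ R) : K9 * S ^ 5 * G ^ 5 ≤ R := by
  have h3 : (K9 * S ^ 5 * G ^ 5) ^ 4 ≤ R ^ 4 := by
    calc (K9 * S ^ 5 * G ^ 5) ^ 4 = (K9 * S ^ 5) ^ 4 * G ^ 20 := by
          rw [mul_pow, ← pow_mul G]
      _ ≤ R * R := by gcongr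
      _ = R ^ 2 := by ring
      _ ≤ R ^ 4 := pow_le_pow_right₀ hR (by norm_num)
  exact (pow_le_pow_iff_left₀ (by positivity) (by positivity) (by norm_num)).1 h3

lemma core_A (K3 K6 K8 β S G Lam : ℝ) (h3 : 0 < K3) (h6 : 0 < K6) (h8 : 0 < K8) (hβ : 0 < β)
    (hS : 1 ≤ S) (hG : 1 ≤ G) (hL : 0 < Lam) (hL2 : Lam ≤ K6 * S * G) :
    16 * K3 * Lam ^ 5 / β ≤ (16 * K3 * K6 ^ 5 / β + 16 * K6 * K8 / β) * S ^ 5 * G ^ 5 ∧
    16 * Lam * (K8 * S) / β ≤ (16 * K3 * K6 ^ 5 / β + 16 * K6 * K8 / β) * S ^ 5 * G ^ 5 := by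
  constructor
  · calc 16 * K3 * Lam ^ 5 / β ≤ 16 * K3 * (K6 * S * G) ^ 5 / β := by gcongr
      _ = (16 * K3 * K6 ^ 5 / β) * (S ^ 5 * G ^ 5) := by rw [mul_pow, mul_pow]; ring
      _ ≤ (16 * K3 * K6 ^ 5 / β + 16 * K6 * K8 / β) * (S ^ 5 * G ^ 5) := by
          apply mul_le_mul_of_nonneg_right _ (by positivity)
          have : 0 < 16 * K6 * K8 / β := by positivity
          linarith
      _ = _ := (mul_assoc _ _ _).symm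
  · calc 16 * Lam * (K8 * S) / β ≤ 16 * (K6 * S * G) * (K8 * S) / β := by gcongr
      _ = (16 * K6 * K8 / β) * (S ^ 2 * G ^ 1) := by ring
      _ ≤ (16 * K6 * K8 / β) * (S ^ 5 * G ^ 5) := by
          gcongr <;> norm_num
      _ ≤ (16 * K3 * K6 ^ 5 / β + 16 * K6 * K8 / β) * (S ^ 5 * G ^ 5) := by
          apply mul_le_mul_of_nonneg_right _ (by positivity)
          have : 0 < 16 * K3 * K6 ^ 5 / β := by positivity
          linarith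
      _ = _ := (mul_assoc _ _ _).symm

lemma core_Lam (k ω G m0 m1 m s : ℝ) (hk : 1 ≤ k) (hω : 0 < ω) (hω1 : ω ≤ 1) (hG : 1 ≤ G)
    (hm0 : 0 ≤ m0) (hm1 : 0 ≤ m1) (hs : 0 ≤ s) (hm : m = m0 + m1 * s) :
    1 ≤ 8 * k * (2 * (m + 1) * G + 1) / ω ∧
    8 * k * (2 * (m + 1) * G + 1) / ω ≤ (24 * k / ω * (m0 + 1 + m1)) * (s + 1) * G := by
  have hmp : 1 ≤ m + 1 := by rw [hm]; nlinarith [mul_nonneg hm1 hs]
  have hm1' : m + 1 ≤ (m0 + 1 + m1) * (s + 1) := by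
    rw [hm]; nlinarith [mul_nonneg hm0 hs]
  constructor
  · rw [le_div_iff₀ hω]
    have : 1 ≤ 2 * (m + 1) * G + 1 := by
      have : 0 ≤ 2 * (m + 1) * G := by positivity
      linarith
    nlinarith
  · have h2 : 1 ≤ (m + 1) * G := by nlinarith
    have h3 : (m + 1) * G ≤ ((m0 + 1 + m1) * (s + 1)) * G :=
      mul_le_mul_of_nonneg_right hm1' (by linarith)
    have h1 : 2 * (m + 1) * G + 1 ≤ 3 * (((m0 + 1 + m1) * (s + 1)) * G) := by linarith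
    calc 8 * k * (2 * (m + 1) * G + 1) / ω
        ≤ 8 * k * (3 * (((m0 + 1 + m1) * (s + 1)) * G)) / ω := by gcongr
      _ = (24 * k / ω * (m0 + 1 + m1)) * (s + 1) * G := by ring

lemma core_sig (k Lam ω a V : ℝ) (hk : 0 < k) (hω : 0 < ω) (hL : 1 ≤ Lam)
    (haV : a * V ≤ 1) :
    sig k Lam ω a V ≤ (41472 * k ^ 3 / ω ^ 2) * (2 + 41472 * k ^ 2 / ω ^ 2) * Lam ^ 4 := by
  unfold sig
  have h3 : 41472 * k ^ 3 * Lam ^ 2 * a * V / ω ^ 2 ≤ 41472 * k ^ 3 / ω ^ 2 * Lam ^ 2 := by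
    calc 41472 * k ^ 3 * Lam ^ 2 * a * V / ω ^ 2
        = (41472 * k ^ 3 / ω ^ 2 * Lam ^ 2) * (a * V) := by ring
      _ ≤ (41472 * k ^ 3 / ω ^ 2 * Lam ^ 2) * 1 :=
          mul_le_mul_of_nonneg_left haV (by positivity)
      _ = _ := mul_one _
  have h4 : 2 + 41472 * k ^ 2 * Lam ^ 2 / ω ^ 2 ≤ (2 + 41472 * k ^ 2 / ω ^ 2) * Lam ^ 2 := by
    have h5 : 1 ≤ Lam ^ 2 := one_le_pow₀ hL
    have h6 : 41472 * k ^ 2 * Lam ^ 2 / ω ^ 2 = 41472 * k ^ 2 / ω ^ 2 * Lam ^ 2 := by ring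
    rw [h6]; nlinarith
  calc _ ≤ (41472 * k ^ 3 / ω ^ 2 * Lam ^ 2) * ((2 + 41472 * k ^ 2 / ω ^ 2) * Lam ^ 2) := by
        gcongr
    _ = _ := by ring

lemma core_ent (D : ℝ) (hD : 2 ≤ D) (C s : ℕ) (lam : ℝ)
    (h : 16 + (4 * (C : ℝ) + 20) * s * D ≤ lam) :
    16 * D ^ (4 * s) * ((D ^ (2 * (C * s) + 8 * s)) ^ 2 * Real.exp (-lam)) ≤ 1 := by
  have hD0 : 0 < D := by linarith
  have h1 : 16 * D ^ (4 * s) * (D ^ (2 * (C * s) + 8 * s)) ^ 2 ≤ Real.exp lam := by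
    calc 16 * D ^ (4 * s) * (D ^ (2 * (C * s) + 8 * s)) ^ 2
        = 16 * D ^ ((4 * C + 20) * s) := by
          rw [← pow_mul, mul_assoc, ← pow_add]; ring_nf
      _ ≤ Real.exp 16 * Real.exp D ^ ((4 * C + 20) * s) := by
          gcongr
          · linarith [Real.add_one_le_exp (16 : ℝ)]
          · linarith [Real.add_one_le_exp (D : ℝ)]
      _ = Real.exp (16 + (4 * C + 20) * s * D) := by
          rw [← Real.exp_nat_mul, ← Real.exp_add]; push_cast; ring_nf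
      _ ≤ Real.exp lam := Real.exp_le_exp.2 h
  rw [Real.exp_neg]
  have h2 : 16 * D ^ (4 * s) * ((D ^ (2 * (C * s) + 8 * s)) ^ 2 * (Real.exp lam)⁻¹) =
      (16 * D ^ (4 * s) * (D ^ (2 * (C * s) + 8 * s)) ^ 2) / Real.exp lam := by
    rw [div_eq_mul_inv]; ring
  rw [h2, div_le_one (Real.exp_pos _)]
  exact h1

/-- the choice of `C` and `g`. -/
lemma choice (D : ℕ) (c : ℝ) (hD : 2 ≤ D) (hc0 : 0 < c) (hc1 : c < 1) :
    ∃ (C : ℕ) (g : ℝ), 1 ≤ C ∧ 0 < g ∧ g < 1 ∧ (1 - c) ^ C * (D : ℝ) ^ 2 ≤ 1 ∧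
      (1 - c) ≤ (1 - g) ^ (40 * C) := by
  have hcc : 0 < 1 - c := by linarith
  have hD0 : (2 : ℝ) ≤ D := by exact_mod_cast hD
  obtain ⟨C0, hC0⟩ : ∃ n : ℕ, (1 - c) ^ n < 1 / (D : ℝ) ^ 2 :=
    exists_pow_lt_of_lt_one (by positivity) (by linarith)
  have hC1 : (1 : ℝ) ≤ ((C0 + 1 : ℕ) : ℝ) := by
    push_cast; linarith [Nat.cast_nonneg (α := ℝ) C0]
  have hcpos : (0 : ℝ) < 40 * ((C0 + 1 : ℕ) : ℝ) := by positivity
  refine ⟨C0 + 1, c / (40 * ((C0 + 1 : ℕ) : ℝ)), by omega, by positivity, ?_, ?_, ?_⟩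
  · rw [div_lt_one hcpos]; linarith
  · have h1 : (1 - c) ^ (C0 + 1) ≤ (1 - c) ^ C0 :=
      pow_le_pow_of_le_one hcc.le (by linarith) (by omega)
    have h2 : (1 - c) ^ (C0 + 1) < 1 / (D : ℝ) ^ 2 := lt_of_le_of_lt h1 hC0
    rw [lt_div_iff₀ (by positivity)] at h2
    exact h2.le
  · have hg1 : c / (40 * ((C0 + 1 : ℕ) : ℝ)) ≤ 1 := by
      rw [div_le_one hcpos]; linarith
    have hb := one_add_mul_le_pow (a := -(c / (40 * ((C0 + 1 : ℕ) : ℝ)))) (by linarith)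
      (40 * (C0 + 1))
    have h3 : 1 + ((40 * (C0 + 1) : ℕ) : ℝ) * (-(c / (40 * ((C0 + 1 : ℕ) : ℝ)))) = 1 - c := by
      push_cast; field_simp; ring
    rw [h3] at hb
    have h4 : (1 : ℝ) + -(c / (40 * ((C0 + 1 : ℕ) : ℝ))) = 1 - c / (40 * ((C0 + 1 : ℕ) : ℝ)) := by
      ring
    rwa [h4] at hb

/-- the choice of all other parameters (section 3.4). -/
lemma params (D C : ℕ) (c g : ℝ) (hD : 2 ≤ D) (hc0 : 0 < c) (hc1 : c < 1) (hg0 : 0 < g)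
    (hg1 : g < 1) (hC : (1 - c) ^ C * (D : ℝ) ^ 2 ≤ 1) (hg2 : (1 - c) ≤ (1 - g) ^ (40 * C))
    (k ω : ℝ) (hk : 1 ≤ k) (hω : 0 < ω) (hω1 : ω ≤ 1) :
    ∃ (s m : ℕ) (Lam lam : ℝ), 1 ≤ Lam ∧
        lam = ω ^ 2 / 24576 * (1 / (4 * Lam * (1 - c) ^ s)) / 4 ∧
        256 * k * ((D : ℝ) ^ (C * s + 2 * s)) ^ 2 * (((1 - g) ^ (C * s))⁻¹) ^ 2 / ω ≤ 4 ^ m ∧
        8 * k * (2 * (m + 1) * (((1 - g) ^ (C * s))⁻¹) ^ 2 + 1) / ω ≤ Lam ∧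
        1 ≤ 1 / (4 * Lam * (1 - c) ^ s) ∧
        sig k Lam ω ((1 - c) ^ (C * s)) ((D : ℝ) ^ (2 * s)) ≤ lam ∧
        1 ≤ lam ∧
        16 * (D : ℝ) ^ (4 * s) * (((D : ℝ) ^ (2 * (C * s) + 8 * s)) ^ 2 * Real.exp (-lam)) ≤ 1 ∧
        (k + 2) / (1 - Real.exp (-(ω ^ 2 / 24576))) ≤ Real.exp lam := by
  have hcc : 0 < 1 - c := by linarith
  have hD0 : (2 : ℝ) ≤ D := by exact_mod_cast hD
  have hgg : 0 < 1 - g := by linarith
  have hr1 : 1 < (1 - c)⁻¹ := (one_lt_inv₀ hcc).2 (by linarith)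
  have hβ0 : 0 < ω ^ 2 / 24576 := by positivity
  have hβ1 : ω ^ 2 / 24576 ≤ 1 := by
    rw [div_le_one (by norm_num)]; nlinarith
  generalize ω ^ 2 / 24576 = β at hβ0 hβ1 ⊢
  have hexpβ : 0 < 1 - Real.exp (-β) := by
    have : Real.exp (-β) < 1 := by rw [Real.exp_lt_one_iff]; linarith
    linarith
  have hK8q : 0 < (k + 2) / (1 - Real.exp (-β)) := by positivity
  generalize (k + 2) / (1 - Real.exp (-β)) = K7 at hK8q ⊢
  obtain ⟨K8, hK8⟩ : ∃ x : ℝ, x = 16 + (4 * (C : ℝ) + 20) * D + K7 := ⟨_, rfl⟩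
  have hCD : 0 ≤ (4 * (C : ℝ) + 20) * D := by positivity
  have hK8p : 16 ≤ K8 := by linarith
  obtain ⟨m0, hm0⟩ : ∃ n : ℕ, 256 * k / ω < 4 ^ n := pow_unbounded_of_one_lt _ (by norm_num)
  obtain ⟨m1, hm1⟩ : ∃ n : ℕ, (D : ℝ) ^ (2 * (C + 2)) * (1 - c)⁻¹ < 4 ^ n :=
    pow_unbounded_of_one_lt _ (by norm_num)
  obtain ⟨K6, hK6⟩ : ∃ x : ℝ, x = 24 * k / ω * (m0 + 1 + m1) := ⟨_, rfl⟩
  have hK6p : 0 < K6 := by rw [hK6]; positivity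
  obtain ⟨K3, hK3⟩ : ∃ x : ℝ, x = (41472 * k ^ 3 / ω ^ 2) * (2 + 41472 * k ^ 2 / ω ^ 2) := ⟨_, rfl⟩
  have hK3p : 0 < K3 := by rw [hK3]; positivity
  have hK9p : 0 < 16 * K3 * K6 ^ 5 / β + 16 * K6 * K8 / β := by positivity
  obtain ⟨s, hs⟩ := exists_s (1 - c)⁻¹ _ hr1 hK9p
  have hgi : 1 ≤ ((1 - g) ^ (C * s))⁻¹ := by
    rw [one_le_inv₀ (by positivity)]
    exact pow_le_one₀ hgg.le (by linarith)
  have hG1 : 1 ≤ (((1 - g) ^ (C * s))⁻¹) ^ 2 := one_le_pow₀ hgi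
  have hcs : 0 < (1 - c) ^ s := by positivity
  have hG20 : ((((1 - g) ^ (C * s))⁻¹) ^ 2) ^ 20 ≤ (1 - c)⁻¹ ^ s := by
    rw [inv_pow (1 - c) s, ← pow_mul, inv_pow, ← pow_mul]
    apply inv_anti₀ hcs
    calc (1 - c) ^ s ≤ ((1 - g) ^ (40 * C)) ^ s := pow_le_pow_left₀ hcc.le hg2 s
      _ = (1 - g) ^ (C * s * (2 * 20)) := by rw [← pow_mul]; ring_nf
  obtain ⟨G, hGd⟩ : ∃ G : ℝ, (((1 - g) ^ (C * s))⁻¹) ^ 2 = G := ⟨_, rfl⟩
  rw [hGd] at hG1 hG20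
  have hR1 : 1 ≤ (1 - c)⁻¹ ^ s := one_le_pow₀ hr1.le
  have hs0 : (0 : ℝ) ≤ s := Nat.cast_nonneg s
  have hmain := core_R _ ((s : ℝ) + 1) G ((1 - c)⁻¹ ^ s) hK9p (by positivity) (by linarith) hR1
    hs hG20
  obtain ⟨hLam1, hLam2⟩ := core_Lam k ω G m0 m1 ((m0 + m1 * s : ℕ) : ℝ) s hk hω hω1 hG1
    (Nat.cast_nonneg _) (Nat.cast_nonneg _) hs0 (by push_cast; ring)
  rw [← hK6] at hLam2
  obtain ⟨Lam, hLam⟩ : ∃ x : ℝ, x = 8 * k * (2 * (((m0 + m1 * s : ℕ) : ℝ) + 1) * G + 1) / ω :=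
    ⟨_, rfl⟩
  rw [← hLam] at hLam1 hLam2
  have hLam0 : 0 < Lam := by linarith
  obtain ⟨hA1, hA2⟩ := core_A K3 K6 K8 β ((s : ℝ) + 1) G Lam hK3p hK6p (by linarith) hβ0
    (by linarith) hG1 hLam0 hLam2
  have hA1' := hA1.trans hmain
  have hA2' := hA2.trans hmain
  obtain ⟨lam, hlam⟩ : ∃ x : ℝ, x = β * (1 / (4 * Lam * (1 - c) ^ s)) / 4 := ⟨_, rfl⟩
  have hlamR : lam = β * (1 - c)⁻¹ ^ s / (16 * Lam) := by
    rw [hlam, inv_pow]; field_simp; norm_num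
  have hlam2 : K8 * (s + 1) ≤ lam := by
    rw [hlamR, le_div_iff₀ (by positivity)]
    rw [div_le_iff₀ hβ0] at hA2'
    linarith
  have hK8s : K8 * 1 ≤ K8 * (s + 1) := mul_le_mul_of_nonneg_left (by linarith) (by linarith)
  have hlam1 : 1 ≤ lam := by linarith
  refine ⟨s, m0 + m1 * s, Lam, lam, hLam1, hlam, ?_, ?_, ?_, ?_, hlam1, ?_, ?_⟩
  · -- m
    have h1 : G ≤ (1 - c)⁻¹ ^ s := by
      calc G = G ^ 1 := (pow_one _).symm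
        _ ≤ G ^ 20 := pow_le_pow_right₀ hG1 (by norm_num)
        _ ≤ _ := hG20
    have hcc' : 0 < (1 - c)⁻¹ := by positivity
    rw [hGd]
    calc 256 * k * ((D : ℝ) ^ (C * s + 2 * s)) ^ 2 * G / ω
        ≤ 256 * k * ((D : ℝ) ^ (C * s + 2 * s)) ^ 2 * (1 - c)⁻¹ ^ s / ω := by gcongr
      _ = (256 * k / ω) * ((D : ℝ) ^ (2 * (C + 2)) * (1 - c)⁻¹) ^ s := by
          rw [mul_pow, ← pow_mul, ← pow_mul]; ring_nf
      _ ≤ 4 ^ m0 * (4 ^ m1) ^ s := by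
          gcongr
      _ = 4 ^ (m0 + m1 * s) := by rw [pow_add, pow_mul]
  · rw [hLam, hGd]
  · -- Th
    have h1 : 1 ≤ 4 * lam / β := by
      rw [le_div_iff₀ hβ0]
      linarith
    have h2 : 4 * lam / β = 1 / (4 * Lam * (1 - c) ^ s) := by
      rw [hlam]; field_simp
    rwa [h2] at h1
  · -- sig
    have h2 : (1 - c) ^ (C * s) * (D : ℝ) ^ (2 * s) ≤ 1 := by
      have : (1 - c) ^ (C * s) * (D : ℝ) ^ (2 * s) = ((1 - c) ^ C * (D : ℝ) ^ 2) ^ s := by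
        rw [mul_pow, ← pow_mul, ← pow_mul]
      rw [this]
      exact pow_le_one₀ (by positivity) hC
    refine (core_sig k Lam ω _ _ (by linarith) hω hLam1 h2).trans ?_
    rw [← hK3, hlamR, le_div_iff₀ (by positivity)]
    rw [div_le_iff₀ hβ0] at hA1'
    calc K3 * Lam ^ 4 * (16 * Lam) = 16 * K3 * Lam ^ 5 := by ring
      _ ≤ _ := hA1'
      _ = _ := mul_comm _ _
  · -- entropy of connected sets
    apply core_ent (D : ℝ) hD0 C s lam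
    refine le_trans ?_ hlam2
    have h9 : (4 * (C : ℝ) + 20) * s * D = (4 * (C : ℝ) + 20) * D * s := by ring
    have h10 : ((4 * (C : ℝ) + 20) * D + 16) * (s + 1) ≤ K8 * (s + 1) :=
      mul_le_mul_of_nonneg_right (by linarith) (by linarith)
    rw [h9]
    have h11 : ((4 * (C : ℝ) + 20) * D + 16) * (s + 1) =
        (4 * (C : ℝ) + 20) * D * s + 16 + ((4 * (C : ℝ) + 20) * D + 16 * s) := by ring
    rw [h11] at h10
    linarith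
  · calc K7 ≤ K8 := by linarith
      _ ≤ K8 * (s + 1) := by linarith
      _ ≤ lam := hlam2
      _ ≤ Real.exp lam := by linarith [Real.add_one_le_exp lam]

end Pool.Agent.H91.UQL
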