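import Mathlib
import Pool.Agent.H91.UQL.LabB

/-! UQL, module LAB: labels from DET, PROB, LLL, COUNT. -/

set_option autoImplicit false

namespace Pool.Agent.H91.UQL

open Pool.Agent.H9.UQL Classical

/-! ### geometric tails -/

lemma exp_tail (β x : ℝ) (hβ : 0 < β) (n : ℕ) :
    ∑ M ∈ (Finset.range n).filter (fun M : ℕ => x ≤ (M : ℝ)), Real.exp (-(β * M)) ≤
      Real.exp (-(β * x)) / (1 - Real.exp (-β)) := by
  set M0 := ⌈x⌉₊ with hM0
  have he : Real.exp (-β) < 1 := by rw [Real.exp_lt_one_iff]; linarith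
  have hpos : 0 < 1 - Real.exp (-β) := by linarith
  have h1 : ∑ M ∈ (Finset.range n).filter (fun M : ℕ => x ≤ (M : ℝ)), Real.exp (-(β * M)) ≤
      ∑ j ∈ Finset.range n, Real.exp (-(β * (M0 + j : ℕ))) := by
    have hsub : (Finset.range n).filter (fun M : ℕ => x ≤ (M : ℝ)) ⊆
        (Finset.range n).image (fun j => M0 + j) := by
      intro M hM
      rw [Finset.mem_filter, Finset.mem_range] at hM
      have h2 : M0 ≤ M := Nat.ceil_le.2 hM.2
      rw [Finset.mem_image]
      exact ⟨M - M0, Finset.mem_range.2 (by omega), by omega⟩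
    calc _ ≤ ∑ M ∈ (Finset.range n).image (fun j => M0 + j), Real.exp (-(β * M)) :=
          Finset.sum_le_sum_of_subset_of_nonneg hsub (fun _ _ _ => (Real.exp_pos _).le)
      _ = _ := Finset.sum_image (fun a _ b _ h => by
          have : M0 + a = M0 + b := h
          omega)
  refine h1.trans ?_
  have h2 : ∀ j : ℕ, Real.exp (-(β * (M0 + j : ℕ))) =
      Real.exp (-(β * M0)) * Real.exp (-β) ^ j := by
    intro j
    rw [← Real.exp_nat_mul, ← Real.exp_add]; congr 1; push_cast; ring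
  simp only [h2]
  rw [← Finset.mul_sum, div_eq_mul_inv]
  have h3 : ∑ j ∈ Finset.range n, Real.exp (-β) ^ j ≤ (1 - Real.exp (-β))⁻¹ := by
    rw [← tsum_geometric_of_lt_one (Real.exp_pos _).le he]
    exact (summable_geometric_of_lt_one (Real.exp_pos _).le he).sum_le_tsum _
      (fun i _ => by positivity)
  have h4 : Real.exp (-(β * M0)) ≤ Real.exp (-(β * x)) := by
    apply Real.exp_le_exp.2
    have := Nat.le_ceil x
    rw [← hM0] at this
    nlinarith
  exact mul_le_mul h4 h3 (Finset.sum_nonneg fun i _ => by positivity) (Real.exp_pos _).le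

/-! ### labels -/

lemma lab_norm {ι : Type} [Fintype ι] (ε : ι → Bool) : ‖lab ε‖ ^ 2 = (Fintype.card ι : ℝ) := by
  rw [EuclideanSpace.norm_sq_eq]
  have : ∀ i, ‖(lab ε) i‖ ^ 2 = 1 := by
    intro i
    have h : (lab ε) i = sgn (ε i) := rfl
    rw [h]
    unfold sgn
    split_ifs <;> simp
  rw [Finset.sum_congr rfl (fun i _ => this i)]
  simp

lemma sq_nonneg' {Y ι : Type} [Fintype Y] [Fintype ι] (x : Y → EuclideanSpace ℝ ι) :
    0 ≤ Pool.Agent.H9.UQL.sq x := by
  unfold Pool.Agent.H9.UQL.sq; positivity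

lemma kap_pos {ω : ℝ} (hω : 0 < ω) (q : Option ℕ) : 0 < kap ω q := by
  cases q with
  | none => exact hω
  | some K => exact lt_of_lt_of_le hω (le_max_left _ _)

lemma phi_zero {ι : Type} [Fintype ι] (ε : ι → Bool) (v : EuclideanSpace ℝ ι) (K : ℕ)
    (hK : Fintype.card ι ≤ K) : phi (some K) (lab ε) v = 0 := by
  unfold phi
  apply max_eq_right
  have h1 : (inner ℝ (lab ε) v) ^ 2 ≤ ‖lab ε‖ ^ 2 * ‖v‖ ^ 2 := by
    rw [← mul_pow]
    exact sq_le_sq' (by linarith [neg_abs_le (inner ℝ (lab ε) v), abs_real_inner_le_norm (lab ε) v])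
      (real_inner_le_norm _ _)
  rw [lab_norm] at h1
  have h2 : (Fintype.card ι : ℝ) * ‖v‖ ^ 2 ≤ K * ‖v‖ ^ 2 :=
    mul_le_mul_of_nonneg_right (by exact_mod_cast hK) (by positivity)
  linarith

/-! ### the events -/

lemma bad_congr {Y ι : Type} [Fintype Y] [DecidableEq Y] [Fintype ι] (N : Nb Y) (T : Matrix Y Y ℝ)
    (s t : ℕ) (Lam ω : ℝ) (q : Option ℕ) (Z : Finset Y) (M : ℕ)
    {e e' : Y → EuclideanSpace ℝ ι} (h : ∀ y ∈ N.nball (2 * s) Z, e y = e' y) :
    Bad N T s t Lam ω q Z M e → Bad N T s t Lam ω q Z M e' := by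
  rintro ⟨ξ, h1, h2, h3⟩
  refine ⟨ξ, h1, h2, ?_⟩
  refine lt_of_lt_of_eq h3 ?_
  exact Finset.sum_congr rfl fun z hz => by rw [h z hz]

/-- the set of kinds. -/
def kinds (k : ℕ) : Finset (Option ℕ) := insert none ((Finset.range (k + 1)).image some)

lemma card_kinds (k : ℕ) : (kinds k).card ≤ k + 2 := by
  unfold kinds
  refine (Finset.card_insert_le _ _).trans ?_
  have := Finset.card_image_le (s := Finset.range (k + 1)) (f := (some : ℕ → Option ℕ))
  rw [Finset.card_range] at this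
  omega

lemma mem_kinds_none (k : ℕ) : (none : Option ℕ) ∈ kinds k := Finset.mem_insert_self _ _

lemma mem_kinds_some {k K : ℕ} (h : K ≤ k) : some K ∈ kinds k :=
  Finset.mem_insert_of_mem (Finset.mem_image_of_mem _ (Finset.mem_range.2 (by omega)))

lemma le_of_mem_kinds {k K : ℕ} {q : Option ℕ} (h : q ∈ kinds k) (hq : q = some K) : K ≤ k := by
  subst hq
  unfold kinds at h
  rw [Finset.mem_insert] at h
  rcases h with h | h
  · simp at h
  · rw [Finset.mem_image] at h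
    obtain ⟨a, ha, hab⟩ := h
    rw [Finset.mem_range] at ha
    simp only [Option.some.injEq] at hab
    omega

/-- the event of `Z`. -/
def Ev {Y ι : Type} [Fintype Y] [DecidableEq Y] [Fintype ι] (N : Nb Y) (T : Matrix Y Y ℝ)
    (s t : ℕ) (Lam ω Th : ℝ) (Z : Finset Y) (ε : Y → ι → Bool) : Prop :=
  (Z.Nonempty ∧ ConnRel (N.near (2 * t + 8 * s)) Z) ∧
    ∃ p ∈ kinds (Fintype.card ι) ×ˢ ((Finset.range (4 * Fintype.card Y + 2)).filter
      (fun M : ℕ => Th * Z.card ≤ (M : ℝ))), Bad N T s t Lam ω p.1 Z p.2 (fun z => lab (ε z))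

lemma pr_Ev {Y ι : Type} [Fintype Y] [DecidableEq Y] [Fintype ι] [Nonempty ι] (h2 : ProbStmt)
    (N : Nb Y) (T : Matrix Y Y ℝ) (s t : ℕ) (Lam ω Th a V lam : ℝ) (Z : Finset Y)
    (hT : Contr T) (ha : ∀ z, ∑ w, (T ^ t) z w ^ 2 ≤ a)
    (hV : ∀ z, ((N.ball (2 * s) z).card : ℝ) ≤ V) (hLam : 1 ≤ Lam) (hω : 0 < ω) (hω1 : ω ≤ 1)
    (hTh : 1 ≤ Th) (hlam : lam = ω ^ 2 / 24576 * Th / 4) (hlam1 : 1 ≤ lam)
    (hsig : sig (Fintype.card ι) Lam ω a V ≤ lam)
    (hq : ((Fintype.card ι : ℝ) + 2) / (1 - Real.exp (-(ω ^ 2 / 24576))) ≤ Real.exp lam)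
    (hZ : Z.Nonempty) :
    pr (Ev N T s t Lam ω Th Z : (Y → ι → Bool) → Prop) ≤
      Real.exp (-(lam * Z.card)) * Real.exp (-(Z.card : ℝ)) := by
  have hn : (1 : ℝ) ≤ Z.card := by exact_mod_cast hZ.card_pos
  set β : ℝ := ω ^ 2 / 24576 with hβ
  have hβ0 : 0 < β := by positivity
  have he : 0 < 1 - Real.exp (-β) := by
    have : Real.exp (-β) < 1 := by rw [Real.exp_lt_one_iff]; linarith
    linarith
  have h3 : pr (Ev N T s t Lam ω Th Z : (Y → ι → Bool) → Prop) ≤
      ∑ p ∈ kinds (Fintype.card ι) ×ˢ ((Finset.range (4 * Fintype.card Y + 2)).filter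
        (fun M : ℕ => Th * Z.card ≤ (M : ℝ))),
        Real.exp (sig (Fintype.card ι) Lam ω a V * Z.card) * Real.exp (-(β * p.2)) := by
    refine (pr_mono (fun ε h => h.2)).trans ((pr_union _ _).trans (Finset.sum_le_sum ?_))
    rintro ⟨q, M⟩ hp
    rw [Finset.mem_product, Finset.mem_filter] at hp
    have hM : 1 ≤ M := by
      have h4 : (1 : ℝ) ≤ M := by
        have := hp.2.2
        simp only at this
        nlinarith
      exact_mod_cast h4
    have := h2 Y ι N T s t Lam ω a V q Z M hT ha hV hLam hω hω1 hM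
      (fun K hK => le_of_mem_kinds hp.1 hK)
    refine this.trans (le_of_eq ?_)
    rw [← Real.exp_add]
    rfl
  refine h3.trans ?_
  rw [Finset.sum_product]
  simp only
  rw [Finset.sum_const, nsmul_eq_mul, ← Finset.mul_sum]
  have h4 := exp_tail β (Th * Z.card) hβ0 (4 * Fintype.card Y + 2)
  have h5 : Real.exp (-(β * (Th * Z.card))) = Real.exp (-(4 * lam * Z.card)) := by
    rw [hlam]; congr 1; ring
  rw [h5] at h4
  have h6 : ((kinds (Fintype.card ι)).card : ℝ) ≤ (Fintype.card ι : ℝ) + 2 := by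
    exact_mod_cast card_kinds (Fintype.card ι)
  have h7 : Real.exp (sig (Fintype.card ι) Lam ω a V * Z.card) ≤ Real.exp (lam * Z.card) :=
    Real.exp_le_exp.2 (mul_le_mul_of_nonneg_right hsig (by positivity))
  calc _ ≤ ((Fintype.card ι : ℝ) + 2) * (Real.exp (lam * Z.card) *
        (Real.exp (-(4 * lam * Z.card)) / (1 - Real.exp (-β)))) := by
        gcongr
    _ = ((Fintype.card ι : ℝ) + 2) / (1 - Real.exp (-β)) *
        (Real.exp (lam * Z.card) * Real.exp (-(4 * lam * Z.card))) := by ring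
    _ ≤ Real.exp lam * (Real.exp (lam * Z.card) * Real.exp (-(4 * lam * Z.card))) := by
        gcongr
    _ = Real.exp (lam + (lam * Z.card + -(4 * lam * Z.card))) := by
        rw [Real.exp_add, Real.exp_add]
    _ ≤ Real.exp (-(lam * Z.card) + -(Z.card : ℝ)) := by
        apply Real.exp_le_exp.2
        nlinarith
    _ = _ := Real.exp_add _ _

/-! ### neighbourhoods -/

lemma nball_card {Y : Type} [Fintype Y] (N : Nb Y) (D j : ℕ)
    (h : ∀ z : Y, (N.ball j z).card ≤ D ^ j) (Z : Finset Y) :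
    (N.nball j Z).card ≤ Z.card * D ^ j := by
  have hsub : N.nball j Z ⊆ Z.biUnion (fun z => N.ball j z) := by
    intro w hw
    unfold Nb.nball at hw
    rw [Finset.mem_filter] at hw
    obtain ⟨z, hz, hzw⟩ := hw.2
    rw [Finset.mem_biUnion]
    exact ⟨z, hz, by unfold Nb.ball; rw [Finset.mem_filter]; exact ⟨Finset.mem_univ _, hzw⟩⟩
  calc _ ≤ (Z.biUnion (fun z => N.ball j z)).card := Finset.card_le_card hsub
    _ ≤ ∑ z ∈ Z, (N.ball j z).card := Finset.card_biUnion_le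
    _ ≤ ∑ z ∈ Z, D ^ j := Finset.sum_le_sum fun z _ => h z
    _ = _ := by rw [Finset.sum_const, smul_eq_mul]

lemma mem_nball {Y : Type} [Fintype Y] (N : Nb Y) (j : ℕ) (Z : Finset Y) (w : Y) :
    w ∈ N.nball j Z ↔ ∃ z ∈ Z, N.near j z w := by
  unfold Nb.nball; rw [Finset.mem_filter]; simp

/-! ### the theorem -/

theorem lab_thm (h1 : DetStmt) (h2 : ProbStmt) (h3 : LLLStmt) (h4 : CountStmt) : LabStmt := by
  intro D c hD hc0 hc1
  obtain ⟨C, g, hC1, hg0, hg1, hC, hg2⟩ := choice D c hD hc0 hc1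
  refine ⟨g, hg0, hg1, ?_⟩
  intro ι _ _ ω hω hω1
  have hk : (1 : ℝ) ≤ Fintype.card ι := by exact_mod_cast Fintype.card_pos
  obtain ⟨s, m, Lam, lam, hLam1, hlam, hm, hLam2, hTh, hsig, hlam1, hent, hq⟩ :=
    params D C c g hD hc0 hc1 hg0 hg1 hC hg2 (Fintype.card ι) ω hk hω hω1
  refine ⟨C * s, ?_⟩
  obtain ⟨t, ht⟩ : ∃ t : ℕ, t = C * s := ⟨_, rfl⟩
  rw [← ht] at hm hLam2 hsig hent ⊢
  have hst : s ≤ t := by rw [ht]; nlinarith
  obtain ⟨Th, hThd⟩ : ∃ x : ℝ, x = 1 / (4 * Lam * (1 - c) ^ s) := ⟨_, rfl⟩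
  rw [← hThd] at hlam hTh
  intro Y _ _ N T hball hT hcontr hdec B bb wt hB hwt hex1 hex2
  have hcc : 0 < 1 - c := by linarith
  have hgg : 0 < 1 - g := by linarith
  have hLam0 : 0 < Lam := by linarith
  have hDr : (2 : ℝ) ≤ D := by exact_mod_cast hD
  -- the relation
  have hV : ∀ z : Y, (Finset.univ.filter (fun w => N.near (2 * t + 8 * s) z w)).card ≤
      D ^ (2 * t + 8 * s) := fun z => hball (2 * t + 8 * s) z
  obtain ⟨ρ, hρ⟩ : ∃ x : ℝ, x = ((D ^ (2 * t + 8 * s) : ℕ) : ℝ) ^ 2 * Real.exp (-lam) := ⟨_, rfl⟩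
  have hρ0 : 0 ≤ ρ := by rw [hρ]; positivity
  have hent' : 16 * (D : ℝ) ^ (4 * s) * ρ ≤ 1 := by
    rw [hρ]; push_cast; exact hent
  have hD4 : 1 ≤ (D : ℝ) ^ (4 * s) := one_le_pow₀ (by linarith)
  have hρ16 : 16 * ρ ≤ 1 := by nlinarith
  have hρ2 : ρ ≤ 1 / 2 := by linarith
  have hel : Real.exp (-lam) ≤ ρ := by
    rw [hρ]
    have h5 : (1 : ℝ) ≤ ((D ^ (2 * t + 8 * s) : ℕ) : ℝ) ^ 2 := by
      push_cast
      exact one_le_pow₀ (one_le_pow₀ (by linarith))
    have h6 := (Real.exp_pos (-lam)).le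
    nlinarith
  set x : Finset Y → ℝ := wx (N.near (2 * t + 8 * s)) lam with hx
  have hx0 : ∀ Z, 0 ≤ x Z := fun Z => wx_nonneg _ _ _
  have hx1 : ∀ Z, x Z ≤ 1 / 2 := fun Z => by
    have := wx_le (N.near (2 * t + 8 * s)) (lam := lam) (by linarith) Z
    linarith
  have htouch : ∀ (P : Finset Y) (F : Finset (Finset Y)), (∀ Z ∈ F, ∃ z ∈ P, z ∈ Z) →
      ∑ Z ∈ F, x Z ≤ P.card * (2 * ρ) := by
    intro P F hF
    have := sum_touch h4 (N.near (2 * t + 8 * s)) (D ^ (2 * t + 8 * s)) (N.refl _)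
      (fun z w h => N.symm h) hV lam (by rw [← hρ]; exact hρ2) P F hF
    rw [← hρ] at this
    exact this
  -- events
  set A : Finset Y → (Y → ι → Bool) → Prop := fun Z => Ev N T s t Lam ω Th Z with hA
  have hloc : ∀ (Z : Finset Y) (σ τ : Y → ι → Bool), (∀ y ∈ N.nball (2 * s) Z, σ y = τ y) →
      (A Z σ ↔ A Z τ) := by
    intro Z σ τ h
    constructor
    · rintro ⟨h5, p, hp, hbad⟩
      exact ⟨h5, p, hp, bad_congr N T s t Lam ω p.1 Z p.2 (fun y hy => by rw [h y hy]) hbad⟩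
    · rintro ⟨h5, p, hp, hbad⟩
      exact ⟨h5, p, hp, bad_congr N T s t Lam ω p.1 Z p.2 (fun y hy => by rw [h y hy]) hbad⟩
  have hcond : ∀ Z : Finset Y, pr (A Z) ≤ x Z *
      ∏ j ∈ Finset.univ.filter (fun j => j ≠ Z ∧ ¬ Disjoint (N.nball (2 * s) Z)
        (N.nball (2 * s) j)), (1 - x j) := by
    intro Z
    by_cases hZ : Z.Nonempty ∧ ConnRel (N.near (2 * t + 8 * s)) Z
    · have hxZ : x Z = Real.exp (-(lam * Z.card)) := by
        rw [hx]; unfold wx; rw [if_pos hZ]
      have hp := pr_Ev (ι := ι) h2 N T s t Lam ω Th ((1 - c) ^ t) ((D : ℝ) ^ (2 * s)) lam Z hcontr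
        (fun z => hdec t le_rfl z) (fun z => by exact_mod_cast hball (2 * s) z) hLam1 hω hω1 hTh
        hlam hlam1 hsig hq hZ.1
      refine hp.trans ?_
      rw [hxZ]
      refine mul_le_mul_of_nonneg_left ?_ (Real.exp_pos _).le
      refine le_trans ?_ (prod_ge _ x (fun j _ => hx0 j) (fun j _ => hx1 j))
      apply Real.exp_le_exp.2
      have h6 := htouch (N.nball (4 * s) Z) (Finset.univ.filter (fun j => j ≠ Z ∧
        ¬ Disjoint (N.nball (2 * s) Z) (N.nball (2 * s) j))) (by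
          intro j hj
          rw [Finset.mem_filter] at hj
          obtain ⟨w, hw1, hw2⟩ := Finset.not_disjoint_iff.1 hj.2.2
          rw [mem_nball] at hw1 hw2
          obtain ⟨z, hz, hzw⟩ := hw1
          obtain ⟨z', hz', hzw'⟩ := hw2
          refine ⟨z', ?_, hz'⟩
          rw [mem_nball]
          refine ⟨z, hz, ?_⟩
          have h7 := N.trans hzw (N.symm hzw')
          have h8 : 2 * s + 2 * s = 4 * s := by ring
          rwa [h8] at h7)
      have h7 : ((N.nball (4 * s) Z).card : ℝ) ≤ Z.card * (D : ℝ) ^ (4 * s) := by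
        exact_mod_cast nball_card N D (4 * s) (fun z => hball _ z) Z
      have h8 : ((N.nball (4 * s) Z).card : ℝ) * (2 * ρ) ≤ Z.card * (D : ℝ) ^ (4 * s) * (2 * ρ) :=
        mul_le_mul_of_nonneg_right h7 (by linarith)
      have h9 : (Z.card : ℝ) * (D : ℝ) ^ (4 * s) * (2 * ρ) ≤ Z.card * (1 / 8) := by
        have : (D : ℝ) ^ (4 * s) * (2 * ρ) ≤ 1 / 8 := by linarith
        calc (Z.card : ℝ) * (D : ℝ) ^ (4 * s) * (2 * ρ)
            = Z.card * ((D : ℝ) ^ (4 * s) * (2 * ρ)) := by ring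
          _ ≤ _ := mul_le_mul_of_nonneg_left this (Nat.cast_nonneg _)
      have h10 : (0 : ℝ) ≤ Z.card := Nat.cast_nonneg _
      linarith
    · have h5 : pr (A Z) = 0 := by
        rw [pr_eq_ex]
        unfold ex
        rw [Finset.sum_eq_zero, zero_div]
        intro ε _
        rw [if_neg (fun h => hZ h.1)]
      have h6 : x Z = 0 := by
        rw [hx]; unfold wx; rw [if_neg hZ]
      rw [h5, h6, zero_mul]
  obtain ⟨hgood, hcondl⟩ := h3 Y (ι → Bool) (Finset Y) A (fun Z => N.nball (2 * s) Z) x hloc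
    (fun Z => ⟨hx0 Z, by linarith [hx1 Z]⟩) hcond
  -- second moments
  have hpair : ∀ z w : Y, ex (fun σ : Y → ι → Bool => if (∀ Z, ¬ A Z σ) then B (σ z) (σ w) else 0)
      ≤ 2 * bb * pr (fun σ : Y → ι → Bool => ∀ Z, ¬ A Z σ) := by
    intro z w
    have h5 := hcondl (fun σ => B (σ z) (σ w)) {z, w} (fun σ => hB _ _) (by
      intro σ τ h
      rw [h z (by simp), h w (by simp)])
    have h6 : ex (fun σ : Y → ι → Bool => B (σ z) (σ w)) ≤ bb := by
      by_cases hzw : z = w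
      · subst hzw
        rw [ex_eval z (fun a : ι → Bool => B a a)]
        exact hex2
      · rw [ex_eval2 hzw B]
        exact hex1
    have h7 : (1 : ℝ) / 2 ≤ ∏ j ∈ Finset.univ.filter (fun j => ¬ Disjoint ({z, w} : Finset Y)
        (N.nball (2 * s) j)), (1 - x j) := by
      refine le_trans ?_ (prod_ge _ x (fun j _ => hx0 j) (fun j _ => hx1 j))
      have h8 := htouch (N.nball (2 * s) {z, w}) (Finset.univ.filter (fun j =>
        ¬ Disjoint ({z, w} : Finset Y) (N.nball (2 * s) j))) (by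
          intro j hj
          rw [Finset.mem_filter] at hj
          obtain ⟨u, hu1, hu2⟩ := Finset.not_disjoint_iff.1 hj.2
          rw [mem_nball] at hu2
          obtain ⟨z', hz', hzu⟩ := hu2
          refine ⟨z', ?_, hz'⟩
          rw [mem_nball]
          exact ⟨u, hu1, N.symm hzu⟩)
      have h9 : ((N.nball (2 * s) {z, w}).card : ℝ) ≤ 2 * (D : ℝ) ^ (2 * s) := by
        have h10 := nball_card N D (2 * s) (fun z => hball _ z) {z, w}
        have h11 : ({z, w} : Finset Y).card ≤ 2 := Finset.card_le_two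
        have h12 : (N.nball (2 * s) {z, w}).card ≤ 2 * D ^ (2 * s) :=
          h10.trans (Nat.mul_le_mul_right _ h11)
        exact_mod_cast h12
      have h13 : (D : ℝ) ^ (2 * s) ≤ (D : ℝ) ^ (4 * s) :=
        pow_le_pow_right₀ (by linarith) (by omega)
      have h14 : ∑ j ∈ Finset.univ.filter (fun j => ¬ Disjoint ({z, w} : Finset Y)
          (N.nball (2 * s) j)), x j ≤ 1 / 4 := by
        refine h8.trans ?_
        calc ((N.nball (2 * s) {z, w}).card : ℝ) * (2 * ρ) ≤ (2 * (D : ℝ) ^ (4 * s)) * (2 * ρ) :=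
              mul_le_mul_of_nonneg_right (by linarith) (by linarith)
          _ ≤ 1 / 4 := by linarith
      have h15 : (1 : ℝ) / 2 ≤ Real.exp (-(2 * (1 / 4))) := by
        linarith [Real.add_one_le_exp (-(2 * (1 / 4)) : ℝ)]
      exact h15.trans (Real.exp_le_exp.2 (by linarith))
    have h8 : 0 ≤ ex (fun σ : Y → ι → Bool => if (∀ Z, ¬ A Z σ) then B (σ z) (σ w) else 0) := by
      unfold ex
      apply div_nonneg _ (Nat.cast_nonneg _)
      refine Finset.sum_nonneg fun σ _ => ?_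
      split_ifs
      exacts [hB _ _, le_rfl]
    have h9 : ex (fun σ : Y → ι → Bool => B (σ z) (σ w)) *
        pr (fun σ : Y → ι → Bool => ∀ Z, ¬ A Z σ) ≤
        bb * pr (fun σ : Y → ι → Bool => ∀ Z, ¬ A Z σ) :=
      mul_le_mul_of_nonneg_right h6 (pr_nonneg _)
    have h10 := mul_le_mul_of_nonneg_left h7 h8
    linarith [h5, h9, h10]
  -- a good labelling with small weighted sum
  obtain ⟨ε, hε1, hε2⟩ : ∃ ε : Y → ι → Bool, (∀ Z, ¬ A Z ε) ∧
      ∑ z, ∑ w, wt z w * B (ε z) (ε w) ≤ 2 * bb * ∑ z, ∑ w, wt z w := by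
    by_contra hno
    push Not at hno
    set K : ℝ := 2 * bb * ∑ z, ∑ w, wt z w with hK
    have h5 : ex (fun σ : Y → ι → Bool => if (∀ Z, ¬ A Z σ) then
        ∑ z, ∑ w, wt z w * B (σ z) (σ w) else 0) ≤
        K * pr (fun σ : Y → ι → Bool => ∀ Z, ¬ A Z σ) := by
      have h6 : (fun σ : Y → ι → Bool => if (∀ Z, ¬ A Z σ) then
          ∑ z, ∑ w, wt z w * B (σ z) (σ w) else 0) = fun σ => ∑ z, ∑ w, wt z w *
          (if (∀ Z, ¬ A Z σ) then B (σ z) (σ w) else 0) := by
        funext σ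
        split_ifs
        · rfl
        · simp
      rw [h6, ex_sum]
      simp only [ex_sum, ex_mul_left]
      calc ∑ z, ∑ w, wt z w * ex (fun σ : Y → ι → Bool =>
            if (∀ Z, ¬ A Z σ) then B (σ z) (σ w) else 0)
          ≤ ∑ z, ∑ w, wt z w * (2 * bb * pr (fun σ : Y → ι → Bool => ∀ Z, ¬ A Z σ)) :=
            Finset.sum_le_sum fun z _ => Finset.sum_le_sum fun w _ =>
              mul_le_mul_of_nonneg_left (hpair z w) (hwt z w)
        _ = K * pr (fun σ : Y → ι → Bool => ∀ Z, ¬ A Z σ) := by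
            rw [hK]
            simp only [← Finset.sum_mul]
            ring
    have h7 : K * pr (fun σ : Y → ι → Bool => ∀ Z, ¬ A Z σ) <
        ex (fun σ : Y → ι → Bool => if (∀ Z, ¬ A Z σ) then
        ∑ z, ∑ w, wt z w * B (σ z) (σ w) else 0) := by
      rw [pr_eq_ex, ← ex_mul_left]
      have hex : ∃ σ : Y → ι → Bool, ∀ Z, ¬ A Z σ := by
        by_contra hn
        push Not at hn
        have : pr (fun σ : Y → ι → Bool => ∀ Z, ¬ A Z σ) = 0 := by
          rw [pr_eq_ex]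
          unfold ex
          rw [Finset.sum_eq_zero, zero_div]
          intro σ _
          rw [if_neg]
          push Not
          exact hn σ
        linarith
      obtain ⟨σ0, hσ0⟩ := hex
      unfold ex
      apply div_lt_div_of_pos_right _ (by exact_mod_cast Fintype.card_pos)
      apply Finset.sum_lt_sum
      · intro σ _
        by_cases h : ∀ Z, ¬ A Z σ
        · rw [if_pos h, if_pos h, mul_one]
          exact (hno σ h).le
        · rw [if_neg h, if_neg h, mul_zero]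
      · refine ⟨σ0, Finset.mem_univ _, ?_⟩
        rw [if_pos hσ0, if_pos hσ0, mul_one]
        exact hno σ0 hσ0
    linarith
  refine ⟨ε, ?_, hε2⟩
  intro q y hy
  by_cases hqK : ∀ K : ℕ, q = some K → K ≤ Fintype.card ι
  · have hqk : q ∈ kinds (Fintype.card ι) := by
      cases q with
      | none => exact mem_kinds_none _
      | some K => exact mem_kinds_some (hqK K rfl)
    have hgp : 0 < (1 - g) ^ t := by positivity
    refine h1 Y ι N T s t m ((D : ℝ) ^ (t + 2 * s)) (((1 - g) ^ t)⁻¹) Lam Th ω ((1 - c) ^ s) q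
      (fun z => lab (ε z)) y hst (fun z => by exact_mod_cast hball (t + 2 * s) z) hT hcontr
      (fun z => hdec s hst z) (by positivity) hω hω1 ?_ (one_le_pow₀ (by linarith))
      (fun z => (lab_norm _).le) hm hLam2 ?_ hTh ?_ ?_
    · rw [one_le_inv₀ hgp]
      exact pow_le_one₀ hgg.le (by linarith)
    · rw [hThd]
      have : 0 < 4 * Lam * (1 - c) ^ s := by positivity
      rw [one_div, inv_mul_le_one₀ this]
    · intro Z hZ hZc M hM1 hM2 hbad
      apply hε1 Z
      refine ⟨⟨hZ, hZc⟩, (q, M), ?_, hbad⟩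
      rw [Finset.mem_product, Finset.mem_filter, Finset.mem_range]
      exact ⟨hqk, by simp only; omega, hM1⟩
    · have h5 : (1 - g) ^ (2 * t) = ((1 - g) ^ t) ^ 2 := by rw [← pow_mul]; ring_nf
      rw [h5] at hy
      rw [inv_pow, inv_mul_eq_div, le_div_iff₀ (by positivity)]
      linarith
  · push Not at hqK
    obtain ⟨K, hqK1, hqK2⟩ := hqK
    subst hqK1
    rw [Finset.sum_eq_zero (fun z _ => phi_zero (ε z) _ K hqK2.le)]
    exact mul_nonneg (kap_pos hω _).le (sq_nonneg' _)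

end Pool.Agent.H91.UQL
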